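import Pool.Agent.R479.DK.Main
import Pool.Agent.R479.DB.Cnt

/-!
# Almost every number has infinitely many exceptional approximations below the critical exponent
-/

set_option autoImplicit false

namespace Pool.Agent.V5helper64.ED

open NumberField IsDedekindDomain Finset Height MeasureTheory Filter Topology
open Pool.Agent.H691R3 Pool.Agent.W221.Exc Pool.Agent.R479.DK
open Pool.Agent.R479.DB (xp ex mb)

variable {K : Type} [Field K] [NumberField K]

/-- other homogeneous coordinates of the points -/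
def sc {q : ℕ} (u : Fin q → K) (α : Fin q → K × K) : Fin q → K × K :=
  fun l => (u l * (α l).1, u l * (α l).2)

theorem counting_sc (T : Set (HeightOneSpectrum (𝓞 K))) {q : ℕ} (α : Fin q → K × K)
    (u : Fin q → K) (hu : ∀ l, u l ≠ 0) (x : K) :
    Pool.Agent.W221.Exc.counting T (sc u α) x = Pool.Agent.W221.Exc.counting T α x := by
  unfold Pool.Agent.W221.Exc.counting
  refine finsum_congr fun v => finsum_congr fun _ => Finset.sum_congr rfl fun l _ => ?_
  have h1 : x * (sc u α l).2 - 1 * (sc u α l).1 = u l * (x * (α l).2 - 1 * (α l).1) := by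
    simp only [sc]
    ring
  have h2 : 0 < FinitePlace.mk v (u l) := by
    rw [FinitePlace.pos_iff]
    exact hu l
  have h3 : max (FinitePlace.mk v x) (FinitePlace.mk v 1) *
      max (FinitePlace.mk v (sc u α l).1) (FinitePlace.mk v (sc u α l).2) /
        FinitePlace.mk v (x * (sc u α l).2 - 1 * (sc u α l).1) =
      max (FinitePlace.mk v x) (FinitePlace.mk v 1) *
      max (FinitePlace.mk v (α l).1) (FinitePlace.mk v (α l).2) /
        FinitePlace.mk v (x * (α l).2 - 1 * (α l).1) := by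
    rw [h1]
    simp only [sc, map_mul]
    rw [← mul_max_of_nonneg _ _ h2.le, mul_left_comm, mul_div_mul_left _ _ h2.ne']
  rw [h3]

theorem ex_sc (T : Set (HeightOneSpectrum (𝓞 K))) {q : ℕ} (α : Fin q → K × K)
    (u : Fin q → K) (hu : ∀ l, u l ≠ 0) (κ c : ℝ) : ex T (sc u α) κ c = ex T α κ c := by
  ext x
  have h1 : ∀ l, x * (sc u α l).2 - 1 * (sc u α l).1 = u l * (x * (α l).2 - 1 * (α l).1) := by
    intro l
    simp only [sc]
    ring
  constructor
  · rintro ⟨h2, h3⟩
    refine ⟨fun l => ?_, ?_⟩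
    · have := h2 l
      rw [h1] at this
      exact right_ne_zero_of_mul this
    · rwa [counting_sc T α u hu] at h3
  · rintro ⟨h2, h3⟩
    refine ⟨fun l => ?_, ?_⟩
    · rw [h1]
      exact mul_ne_zero (hu l) (h2 l)
    · rwa [counting_sc T α u hu]

theorem WEK_sc (σ : K →+* ℝ) (T : Set (HeightOneSpectrum (𝓞 K))) {q : ℕ} (α : Fin q → K × K)
    (u : Fin q → K) (hu : ∀ l, u l ≠ 0) (κ c τ : ℝ) :
    WEK σ T (sc u α) κ c τ = WEK σ T α κ c τ := by
  unfold WEK
  rw [ex_sc T α u hu]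

/-- the images of almost all parameters of `[0, 1]` -/
theorem ae_unit (σ : K →+* ℝ) (T : Set (HeightOneSpectrum (𝓞 K))) {q : ℕ}
    (α : Fin q → K × K) (hα0 : ∀ l, α l ≠ 0) (hα : ∀ i j, i ≠ j → wg (α i) (α j) ≠ 0)
    (l1 l2 : Fin q) (hl12 : l1 ≠ l2)
    (κ c0 τ : ℝ) (hκ : 0 ≤ κ) (hκ2 : κ < 2) (hτ : 0 < τ)
    (hsub : τ < (Module.finrank ℚ K : ℝ) * (2 - κ)) :
    ∀ᵐ x ∂(volume : Measure ℝ), 0 ≤ x → x ≤ 1 → x * σ (α l2).2 + σ (α l1).2 ≠ 0 →
      mb (σ (α l2).1) (σ (α l1).1) (σ (α l2).2) (σ (α l1).2) x ∈ WEK σ T α κ c0 τ := by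
  set d : ℝ := (Module.finrank ℚ K : ℝ) with hd
  have hd0 : 0 < d := by
    rw [hd]
    exact_mod_cast Module.finrank_pos
  obtain ⟨C0, hC0, hdir⟩ := dirichlet_real σ
  have hC00 : 0 < C0 := by linarith
  have h12 : wg (α l1) (α l2) ≠ 0 := hα l1 l2 hl12
  have h0 : τ / d < 2 - κ := by
    rw [div_lt_iff₀ hd0]
    linarith
  obtain ⟨mu, h1, h2⟩ := exists_between h0
  obtain ⟨τ', h3, h4⟩ := exists_between h1
  have hτd : 0 < τ / d := by positivity
  have hmu0 : 0 < mu := by linarith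
  have hτ'0 : 0 < τ' := by linarith
  set κ'' : ℝ := 2 - mu with hκ''
  set κ' : ℝ := (κ + κ'') / 2 with hκ'
  have hκ'0 : 0 < κ' := by linarith
  set E : ℝ := 2 * d / κ' with hE
  have hE0 : 0 < E := by positivity
  have hmu : 2 - κ'' = mu := by rw [hκ'']; ring
  have hgood := ae_good σ hC0 hdir T α hα0 hα l1 l2 hl12 (κ := κ) (κ' := κ') (κ'' := κ'') c0 hκ
    (by linarith) (by linarith) (by linarith)
  rw [← hd, ← hE, hmu] at hgood
  filter_upwards [hgood, ae_not_range σ] with x hx hxr hx0 hx1 hpole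
  have hpos : 0 < |x * σ (α l2).2 + σ (α l1).2| := abs_pos.2 hpole
  refine mem_WEK σ T α l1 l2 h12 hC00 hE0 hτ (by rw [← hd]; exact h3) hpos hxr le_rfl ?_
  have h5 : x ∈ VV σ (Good T α l1 l2 κ c0 C0 E) (mu * E) :=
    ⟨⟨hx0, hx1⟩, (hx (by rw [abs_le]; constructor <;> linarith)).frequently⟩
  exact VV_mono σ _ (mul_le_mul_of_nonneg_right h4.le hE0.le) h5

/-- the images of almost all parameters -/
theorem ae_param (σ : K →+* ℝ) (T : Set (HeightOneSpectrum (𝓞 K))) {q : ℕ}
    (α : Fin q → K × K) (hα0 : ∀ l, α l ≠ 0) (hα : ∀ i j, i ≠ j → wg (α i) (α j) ≠ 0)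
    (l1 l2 : Fin q) (hl12 : l1 ≠ l2)
    (κ c0 τ : ℝ) (hκ : 0 ≤ κ) (hκ2 : κ < 2) (hτ : 0 < τ)
    (hsub : τ < (Module.finrank ℚ K : ℝ) * (2 - κ)) :
    ∀ᵐ x ∂(volume : Measure ℝ), x * σ (α l2).2 + σ (α l1).2 ≠ 0 →
      mb (σ (α l2).1) (σ (α l1).1) (σ (α l2).2) (σ (α l1).2) x ∈ WEK σ T α κ c0 τ := by
  classical
  have key : ∀ R : ℤ, R ≠ 0 → ∀ᵐ x ∂(volume : Measure ℝ), 0 ≤ x → x ≤ 1 →
      (R * x) * σ (α l2).2 + σ (α l1).2 ≠ 0 →
      mb (σ (α l2).1) (σ (α l1).1) (σ (α l2).2) (σ (α l1).2) (R * x) ∈ WEK σ T α κ c0 τ := by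
    intro R hR
    have hRK : (R : K) ≠ 0 := by exact_mod_cast hR
    set u : Fin q → K := fun l => if l = l2 then (R : K) else 1 with hu
    have hu0 : ∀ l, u l ≠ 0 := by
      intro l
      simp only [hu]
      split_ifs
      · exact hRK
      · exact one_ne_zero
    have h1 := ae_unit σ T (sc u α) (fun l h => hα0 l ?_) (fun i j hij => ?_) l1 l2 hl12 κ c0 τ hκ
      hκ2 hτ hsub
    · filter_upwards [h1] with x hx hx0 hx1 hp
      have e1 : (sc u α l2) = ((R : K) * (α l2).1, (R : K) * (α l2).2) := by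
        simp only [sc, hu, if_true]
      have e2 : (sc u α l1) = ((α l1).1, (α l1).2) := by
        simp only [sc, hu, if_neg hl12, one_mul]
      have hx2 := hx hx0 hx1
      rw [WEK_sc σ T α u hu0, e1, e2] at hx2
      simp only [map_mul, map_intCast] at hx2
      have e3 : mb ((R : ℝ) * σ (α l2).1) (σ (α l1).1) ((R : ℝ) * σ (α l2).2) (σ (α l1).2) x =
          mb (σ (α l2).1) (σ (α l1).1) (σ (α l2).2) (σ (α l1).2) (R * x) := by
        unfold Pool.Agent.R479.DB.mb
        congr 1 <;> ring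
      rw [e3] at hx2
      apply hx2
      intro h
      apply hp
      linear_combination h
    · have h2 : u l * (α l).1 = 0 := congrArg Prod.fst h
      have h3 : u l * (α l).2 = 0 := congrArg Prod.snd h
      exact Prod.ext ((mul_eq_zero.1 h2).resolve_left (hu0 l))
        ((mul_eq_zero.1 h3).resolve_left (hu0 l))
    · have h2 : wg (sc u α i) (sc u α j) = u i * u j * wg (α i) (α j) := by
        simp only [wg, sc]
        ring
      rw [h2]
      exact mul_ne_zero (mul_ne_zero (hu0 i) (hu0 j)) (hα i j hij)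
  have key2 : ∀ R : ℤ, R ≠ 0 → ∀ᵐ x ∂(volume : Measure ℝ), 0 ≤ x / (R : ℝ) → x / (R : ℝ) ≤ 1 →
      x * σ (α l2).2 + σ (α l1).2 ≠ 0 →
      mb (σ (α l2).1) (σ (α l1).1) (σ (α l2).2) (σ (α l1).2) x ∈ WEK σ T α κ c0 τ := by
    intro R hR
    have hRR : (R : ℝ) ≠ 0 := by exact_mod_cast hR
    have hq : Measure.QuasiMeasurePreserving (fun x : ℝ => x / R)
        (volume : Measure ℝ) (volume : Measure ℝ) := by
      refine ⟨by fun_prop, ?_⟩
      have h1 := Real.map_volume_mul_right (inv_ne_zero hRR)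
      have h2 : (fun x : ℝ => x / R) = (fun x => x * (R : ℝ)⁻¹) := by
        funext x
        rw [div_eq_mul_inv]
      rw [h2, h1]
      exact Measure.smul_absolutelyContinuous
    filter_upwards [hq.ae (key R hR)] with x hx h1 h2 h3
    have h4 : (R : ℝ) * (x / R) = x := mul_div_cancel₀ _ hRR
    have h5 := hx h1 h2
    rw [h4] at h5
    exact h5 h3
  have key3 : ∀ R : ℤ, ∀ᵐ x ∂(volume : Measure ℝ), R ≠ 0 → 0 ≤ x / (R : ℝ) → x / (R : ℝ) ≤ 1 →
      x * σ (α l2).2 + σ (α l1).2 ≠ 0 →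
      mb (σ (α l2).1) (σ (α l1).1) (σ (α l2).2) (σ (α l1).2) x ∈ WEK σ T α κ c0 τ := by
    intro R
    by_cases hR : R = 0
    · exact Filter.Eventually.of_forall fun x h => absurd hR h
    · filter_upwards [key2 R hR] with x hx _
      exact hx
  filter_upwards [ae_all_iff.2 key3] with x hx hp
  rcases le_or_gt 0 x with h0 | h0
  · have h1 : (0 : ℝ) < ((⌊x⌋ + 1 : ℤ) : ℝ) := by
      have := Int.lt_floor_add_one x
      push_cast
      linarith
    refine hx (⌊x⌋ + 1) ?_ (div_nonneg h0 h1.le) ?_ hp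
    · intro h
      rw [h] at h1
      simp at h1
    · rw [div_le_one h1]
      have := Int.lt_floor_add_one x
      push_cast
      linarith
  · have h1 : ((⌊x⌋ : ℤ) : ℝ) < 0 := lt_of_le_of_lt (Int.floor_le x) h0
    refine hx ⌊x⌋ ?_ (div_nonneg_of_nonpos h0.le h1.le) ?_ hp
    · intro h
      rw [h] at h1
      simp at h1
    · rw [div_le_one_of_neg h1]
      exact Int.floor_le x

/-- **Below the critical exponent almost every number has infinitely many exceptional
approximations.** -/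
theorem ae_WEK (σ : K →+* ℝ) (T : Set (HeightOneSpectrum (𝓞 K))) {q : ℕ} (hq : 2 ≤ q)
    (α : Fin q → K × K) (hα0 : ∀ l, α l ≠ 0) (hα : ∀ i j, i ≠ j → wg (α i) (α j) ≠ 0)
    (κ c0 τ : ℝ) (hκ : 0 ≤ κ) (hκ2 : κ < 2) (hτ : 0 < τ)
    (hsub : τ < (Module.finrank ℚ K : ℝ) * (2 - κ)) :
    ∀ᵐ ξ ∂(volume : Measure ℝ), ξ ∈ WEK σ T α κ c0 τ := by
  set l1 : Fin q := ⟨0, by omega⟩ with hl1
  set l2 : Fin q := ⟨1, by omega⟩ with hl2
  have hl12 : l1 ≠ l2 := by
    rw [hl1, hl2]
    intro h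
    have := congrArg Fin.val h
    simp at this
  have h12 : wg (α l1) (α l2) ≠ 0 := hα l1 l2 hl12
  set a : ℝ := σ (α l2).1 with ha
  set b : ℝ := σ (α l1).1 with hb
  set c : ℝ := σ (α l2).2 with hc
  set e : ℝ := σ (α l1).2 with he
  have hdet : a * e - b * c ≠ 0 := by
    rw [ha, hb, hc, he, ← map_mul, ← map_mul, ← map_sub]
    intro h
    apply h12
    have h1 := (map_eq_zero σ).1 h
    unfold wg
    linear_combination (-1 : K) * h1
  have h1 := ae_param σ T α hα0 hα l1 l2 hl12 κ c0 τ hκ hκ2 hτ hsub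
  rw [← ha, ← hb, ← hc, ← he] at h1
  set N : Set ℝ := {x | ¬ (x * c + e ≠ 0 → mb a b c e x ∈ WEK σ T α κ c0 τ)} with hN
  have hN0 : volume N = 0 := ae_iff.1 h1
  have hNsub : ∀ x ∈ N, x * c + e ≠ 0 := by
    intro x hx
    simp only [hN, Set.mem_ofPred_eq, Classical.not_imp] at hx
    exact hx.1
  have hdiff : DifferentiableOn ℝ (mb a b c e) N := by
    intro x hx
    have h2 : DifferentiableAt ℝ (fun y : ℝ => (y * a + b) / (y * c + e)) x :=
      DifferentiableAt.div (by fun_prop) (by fun_prop) (hNsub x hx)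
    exact h2.differentiableWithinAt
  have himg : volume (mb a b c e '' N) = 0 :=
    MeasureTheory.addHaar_image_eq_zero_of_differentiableOn_of_addHaar_eq_zero volume hdiff hN0
  have hpole : volume {ξ : ℝ | ξ * c - a = 0} = 0 := by
    by_cases hc0 : c = 0
    · have : {ξ : ℝ | ξ * c - a = 0} = ∅ := by
        ext ξ
        simp only [Set.mem_ofPred_eq, Set.mem_empty_iff_false, iff_false]
        rw [hc0, mul_zero, zero_sub, neg_eq_zero]
        intro h
        apply hdet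
        rw [h, hc0]
        ring
      rw [this, measure_empty]
    · have : {ξ : ℝ | ξ * c - a = 0} ⊆ {a / c} := by
        intro ξ hξ
        simp only [Set.mem_ofPred_eq] at hξ
        rw [Set.mem_singleton_iff, eq_div_iff hc0]
        linarith
      exact measure_mono_null this (by simp)
  rw [ae_iff]
  refine measure_mono_null ?_ (measure_union_null himg hpole)
  intro ξ hξ
  simp only [Set.mem_ofPred_eq] at hξ
  by_cases h2 : ξ * c - a = 0
  · exact Or.inr h2
  left
  set y : ℝ := (b - ξ * e) / (ξ * c - a) with hy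
  have h3 : y * c + e = (b * c - a * e) / (ξ * c - a) := by
    rw [hy]
    field_simp
    ring
  have h4 : b * c - a * e ≠ 0 := fun h => hdet (by linarith)
  have h5 : y * c + e ≠ 0 := by
    rw [h3]
    exact div_ne_zero h4 h2
  have h6 : mb a b c e y = ξ := by
    unfold Pool.Agent.R479.DB.mb
    rw [div_eq_iff h5, h3, hy]
    field_simp
    ring
  refine ⟨y, ?_, h6⟩
  simp only [hN, Set.mem_ofPred_eq, Classical.not_imp]
  exact ⟨h5, by rw [h6]; exact hξ⟩

end Pool.Agent.V5helper64.ED
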