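import Pool.Agent.V5helper64.ED.Ae
import Pool.Agent.W221.SelE3

/-!
# One number, all number fields, all finite subsets
-/

set_option autoImplicit false

namespace Pool.Agent.V5helper64.ED

open NumberField IsDedekindDomain Finset Height MeasureTheory Filter Topology
open Pool.Agent.H691R3 Pool.Agent.W221.Exc Pool.Agent.R479.DK
open Pool.Agent.R479.DB (xp ex mb)
open scoped ENNReal NNReal

/-- the cases in which the exponent is known -/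
def Cond (q : ℕ) (κ : ℝ) : Prop := κ ≤ 6 / 7 ∨ (q = 3 ∧ κ ≤ 1) ∨ q = 2

theorem Cond.mono {q : ℕ} {κ κ' : ℝ} (h : κ' ≤ κ) (hc : Cond q κ) : Cond q κ' := by
  rcases hc with h1 | ⟨h1, h2⟩ | h1
  · exact Or.inl (h.trans h1)
  · exact Or.inr (Or.inl ⟨h1, h.trans h2⟩)
  · exact Or.inr (Or.inr h1)

theorem Cond.sel {q : ℕ} (hq : 2 ≤ q) {κ : ℝ} (hc : Cond q κ) :
    Pool.Agent.H691R3.Sel.{0} q κ (2 - κ) := by
  rcases hc with h | ⟨rfl, h⟩ | rfl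
  · have h1 := Pool.Agent.H691R3.sel_all.{0} hq κ
    rwa [max_eq_left (by linarith)] at h1
  · exact Pool.Agent.W221.Exc.sel_below_one (by norm_num)
      (Pool.Agent.W221.Exc.sel_three_one 1 le_rfl) h
  · have h1 := Pool.Agent.H691R3.sel_two.{0} (q := 2) le_rfl κ
    have h2 : (2 : ℝ) - 2 * κ / ((2 : ℕ) : ℝ) = 2 - κ := by push_cast; ring
    rwa [h2] at h1

variable {K : Type} [Field K] [NumberField K]

theorem height_nonneg' (x : K) : 0 ≤ Pool.Agent.W221.Exc.height x := by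
  have hd : (0 : ℝ) < (Module.finrank ℚ K : ℝ) := by exact_mod_cast Module.finrank_pos
  have h1 : (1 : ℝ) ≤ Real.exp (Pool.Agent.W221.Exc.height x) := by
    rw [exp_height]
    exact Real.one_le_rpow (one_le_mulHeight₁ x) (by positivity)
  exact Real.one_le_exp_iff.1 h1

theorem WEK_mono (σ : K →+* ℝ) (T : Set (HeightOneSpectrum (𝓞 K))) {q : ℕ} (α : Fin q → K × K)
    {κ κ' c c' τ τ' : ℝ} (hκ : κ ≤ κ') (hc : c' ≤ c) (hτ : τ ≤ τ') :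
    WEK σ T α κ' c' τ' ⊆ WEK σ T α κ c τ := by
  intro ξ hξ
  refine Set.Infinite.mono ?_ hξ
  rintro x ⟨⟨h1, h2⟩, h3⟩
  have h0 := height_nonneg' x
  refine ⟨⟨h1, h2.trans_le ?_⟩, h3.trans ?_⟩
  · have : ((q : ℝ) - κ') * Pool.Agent.W221.Exc.height x ≤
        ((q : ℝ) - κ) * Pool.Agent.W221.Exc.height x :=
      mul_le_mul_of_nonneg_right (by linarith) h0
    linarith
  · exact Real.rpow_le_rpow_of_exponent_le (Real.one_le_exp h0) (by linarith)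

/-- the null sets above the critical exponent -/
theorem WEK_null (σ : K →+* ℝ) (T : Set (HeightOneSpectrum (𝓞 K))) (hT : T.Finite) {q : ℕ}
    (hq : 2 ≤ q) (α : Fin q → K × K) (hα0 : ∀ l, α l ≠ 0)
    (hα : ∀ i j, i ≠ j → (α i).1 * (α j).2 - (α i).2 * (α j).1 ≠ 0)
    (κ c0 τ : ℝ) (hκ : 0 ≤ κ) (hκ2 : κ < 2) (hc : Cond q κ)
    (hτ : (Module.finrank ℚ K : ℝ) * (2 - κ) < τ) :
    ∀ᵐ ξ ∂(volume : Measure ℝ), ξ ∉ WEK σ T α κ c0 τ := by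
  have hd : (0 : ℝ) < (Module.finrank ℚ K : ℝ) := by exact_mod_cast Module.finrank_pos
  have h0 : 0 < (Module.finrank ℚ K : ℝ) * (2 - κ) := mul_pos hd (by linarith)
  have hτ0 : 0 < τ := h0.trans hτ
  have h1 := WEK_le σ T hT hq α hα0 hα κ c0 τ (2 - κ) hκ (by linarith) hτ0 (hc.sel hq)
  have h2 : dimH (WEK σ T α κ c0 τ) < 1 := by
    refine lt_of_le_of_lt h1 ?_
    rw [← ENNReal.ofReal_one]
    refine (ENNReal.ofReal_lt_ofReal_iff one_pos).2 (lt_of_le_of_lt (min_le_right _ _) ?_)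
    rw [div_lt_one hτ0]
    exact hτ
  rw [ae_iff]
  simp only [not_not, Set.ofPred_mem_eq]
  apply measure_zero_of_dimH_lt (d := 1) _ (by simpa using h2)
  rw [NNReal.coe_one, hausdorffMeasure_real]

/-- one number, all finite subsets -/
theorem ae_all_subsets (σ : K →+* ℝ) :
    ∀ᵐ ξ ∂(volume : Measure ℝ), ∀ T : Set (HeightOneSpectrum (𝓞 K)), T.Finite →
      ∀ q : ℕ, 2 ≤ q → ∀ α : Fin q → K × K, (∀ l, α l ≠ 0) →
      (∀ i j, i ≠ j → (α i).1 * (α j).2 - (α i).2 * (α j).1 ≠ 0) →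
      ∀ κ c τ : ℝ, 0 ≤ κ → κ < 2 →
        (τ < (Module.finrank ℚ K : ℝ) * (2 - κ) → ξ ∈ WEK σ T α κ c τ) ∧
        (Cond q κ → (Module.finrank ℚ K : ℝ) * (2 - κ) < τ → ξ ∉ WEK σ T α κ c τ) := by
  have hd : (0 : ℝ) < (Module.finrank ℚ K : ℝ) := by exact_mod_cast Module.finrank_pos
  set d : ℝ := (Module.finrank ℚ K : ℝ) with hdd
  have := Pool.Agent.R479.DB.countable_nf K
  have := Pool.Agent.R479.DB.countable_primes K
  set J := (Finset (HeightOneSpectrum (𝓞 K)) × (Σ q : ℕ, (Fin q → K × K))) × (ℚ × ℚ × ℕ) with hJ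
  have hJc : Countable J := inferInstance
  have hw : ∀ {q : ℕ} {α : Fin q → K × K},
      (∀ i j, i ≠ j → (α i).1 * (α j).2 - (α i).2 * (α j).1 ≠ 0) →
      (∀ i j, i ≠ j → wg (α i) (α j) ≠ 0) := fun h i j hij => h i j hij
  have hlow : ∀ j : J, ∀ᵐ ξ ∂(volume : Measure ℝ), 2 ≤ j.1.2.1 → (∀ l, j.1.2.2 l ≠ 0) →
      (∀ i k, i ≠ k → (j.1.2.2 i).1 * (j.1.2.2 k).2 - (j.1.2.2 i).2 * (j.1.2.2 k).1 ≠ 0) →
      (0 : ℝ) ≤ j.2.1 → (j.2.1 : ℝ) < 2 → (0 : ℝ) < j.2.2.1 → (j.2.2.1 : ℝ) < d * (2 - j.2.1) →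
      ξ ∈ WEK σ (j.1.1 : Set (HeightOneSpectrum (𝓞 K))) j.1.2.2 j.2.1 (-(j.2.2.2 : ℝ)) j.2.2.1 := by
    intro j
    by_cases hh : 2 ≤ j.1.2.1 ∧ (∀ l, j.1.2.2 l ≠ 0) ∧
      (∀ i k, i ≠ k → (j.1.2.2 i).1 * (j.1.2.2 k).2 - (j.1.2.2 i).2 * (j.1.2.2 k).1 ≠ 0) ∧
      (0 : ℝ) ≤ j.2.1 ∧ (j.2.1 : ℝ) < 2 ∧ (0 : ℝ) < j.2.2.1 ∧ (j.2.2.1 : ℝ) < d * (2 - j.2.1)
    · obtain ⟨h1, h2, h3, h4, h5, h6, h7⟩ := hh
      filter_upwards [ae_WEK σ (j.1.1 : Set (HeightOneSpectrum (𝓞 K))) h1 j.1.2.2 h2 (hw h3) j.2.1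
        (-(j.2.2.2 : ℝ)) j.2.2.1 h4 h5 h6 h7] with ξ hξ _ _ _ _ _ _ _
      exact hξ
    · exact Filter.Eventually.of_forall fun ξ h1 h2 h3 h4 h5 h6 h7 =>
        absurd ⟨h1, h2, h3, h4, h5, h6, h7⟩ hh
  have hupp : ∀ j : J, ∀ᵐ ξ ∂(volume : Measure ℝ), 2 ≤ j.1.2.1 → (∀ l, j.1.2.2 l ≠ 0) →
      (∀ i k, i ≠ k → (j.1.2.2 i).1 * (j.1.2.2 k).2 - (j.1.2.2 i).2 * (j.1.2.2 k).1 ≠ 0) →
      (0 : ℝ) ≤ j.2.1 → (j.2.1 : ℝ) < 2 → Cond j.1.2.1 (j.2.1 : ℝ) →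
      d * (2 - j.2.1) < (j.2.2.1 : ℝ) →
      ξ ∉ WEK σ (j.1.1 : Set (HeightOneSpectrum (𝓞 K))) j.1.2.2 j.2.1 (j.2.2.2 : ℝ) j.2.2.1 := by
    intro j
    by_cases hh : 2 ≤ j.1.2.1 ∧ (∀ l, j.1.2.2 l ≠ 0) ∧
      (∀ i k, i ≠ k → (j.1.2.2 i).1 * (j.1.2.2 k).2 - (j.1.2.2 i).2 * (j.1.2.2 k).1 ≠ 0) ∧
      (0 : ℝ) ≤ j.2.1 ∧ (j.2.1 : ℝ) < 2 ∧ Cond j.1.2.1 (j.2.1 : ℝ) ∧
        d * (2 - j.2.1) < (j.2.2.1 : ℝ)
    · obtain ⟨h1, h2, h3, h4, h5, h6, h7⟩ := hh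
      filter_upwards [WEK_null σ (j.1.1 : Set (HeightOneSpectrum (𝓞 K))) j.1.1.finite_toSet h1
        j.1.2.2 h2 h3 j.2.1 (j.2.2.2 : ℝ) j.2.2.1 h4 h5 h6 h7] with ξ hξ _ _ _ _ _ _ _
      exact hξ
    · exact Filter.Eventually.of_forall fun ξ h1 h2 h3 h4 h5 h6 h7 =>
        absurd ⟨h1, h2, h3, h4, h5, h6, h7⟩ hh
  filter_upwards [ae_all_iff.2 hlow, ae_all_iff.2 hupp] with ξ hlo hup T hT q hq α hα0 hα κ c τ hκ
    hκ2
  constructor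
  · intro hτ
    have h1 : κ < min 2 (2 - τ / d) := by
      refine lt_min hκ2 ?_
      have : τ / d < 2 - κ := by
        rw [div_lt_iff₀ hd]
        linarith
      linarith
    obtain ⟨r, hr1, hr2⟩ := exists_rat_btwn h1
    have hr3 : (r : ℝ) < 2 := hr2.trans_le (min_le_left _ _)
    have hr4 : (r : ℝ) < 2 - τ / d := hr2.trans_le (min_le_right _ _)
    have h2 : max τ 0 < d * (2 - r) := by
      refine max_lt ?_ (mul_pos hd (by linarith))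
      have : τ / d < 2 - r := by linarith
      rw [div_lt_iff₀ hd] at this
      linarith
    obtain ⟨s, hs1, hs2⟩ := exists_rat_btwn h2
    have hs3 : τ < s := lt_of_le_of_lt (le_max_left _ _) hs1
    have hs4 : (0 : ℝ) < s := lt_of_le_of_lt (le_max_right _ _) hs1
    obtain ⟨n, hn⟩ := exists_nat_ge (-c)
    have h3 := hlo ((hT.toFinset, ⟨q, α⟩), (r, s, n)) hq hα0 hα (hκ.trans hr1.le) hr3 hs4 hs2
    simp only [Set.Finite.coe_toFinset] at h3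
    exact WEK_mono σ T α hr1.le (by linarith) hs3.le h3
  · intro hc hτ hmem
    obtain ⟨r, hr0, hrκ, hr2⟩ : ∃ r : ℚ, (0 : ℝ) ≤ r ∧ (r : ℝ) ≤ κ ∧ d * (2 - r) < τ := by
      rcases hκ.eq_or_lt with h0 | h0
      · refine ⟨0, by simp, by simp [← h0], ?_⟩
        rw [← h0] at hτ
        simpa using hτ
      · have h1 : max 0 (2 - τ / d) < κ := by
          refine max_lt h0 ?_
          have : 2 - κ < τ / d := by
            rw [lt_div_iff₀ hd]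
            linarith
          linarith
        obtain ⟨r, hr1, hr2⟩ := exists_rat_btwn h1
        refine ⟨r, ((le_max_left _ _).trans_lt hr1).le, hr2.le, ?_⟩
        have : 2 - τ / d < r := (le_max_right _ _).trans_lt hr1
        have : 2 - (r : ℝ) < τ / d := by linarith
        rw [lt_div_iff₀ hd] at this
        linarith
    obtain ⟨s, hs1, hs2⟩ := exists_rat_btwn hr2
    obtain ⟨n, hn⟩ := exists_nat_ge c
    have h3 := hup ((hT.toFinset, ⟨q, α⟩), (r, s, n)) hq hα0 hα hr0 (by linarith)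
      (hc.mono hrκ) hs1
    simp only [Set.Finite.coe_toFinset] at h3
    exact h3 (WEK_mono σ T α hrκ hn hs2.le hmem)

end Pool.Agent.V5helper64.ED
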